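import Pool.Agent.TH82.FG.State
import Pool.Agent.TH82.FG.T7
import Pool.Agent.TH82.FG.Sp

set_option autoImplicit false
set_option linter.unusedSectionVars false

/-! Job FG-SI: conjugacy separation survives the factorising relator. -/

namespace Pool.Agent.TH82.FG

open Pool.Agent.TH68 Pool.Agent.Helper97.Hyp

namespace SI

section tools

variable {Γ : Type*} [Group Γ] {W : WNorm Γ}

lemma dist_pt (a b : Γ) : dist (pt W a) (pt W b) = (W.ℓ (a⁻¹ * b) : ℝ) := rfl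

lemma dist_one (a : Γ) : dist (pt W 1) (pt W a) = (W.ℓ a : ℝ) := by
  rw [dist_pt, inv_one, one_mul]

/-- points with small excess are close to a point of a geodesic subgroup -/
lemma near_sub {δ : ℝ} (hyp : GHyp (Pt W) δ) {C : Subgroup Γ} (hC : Geo W C) {x : Γ}
    (hx : x ∈ C) {q : Pt W} {e : ℝ} (hq : exc (pt W 1) (pt W x) q ≤ e) :
    ∃ a ∈ C, exc (pt W 1) (pt W x) (pt W a) = 0 ∧ dist q (pt W a) ≤ e + 2 * δ := by
  have hδ := hyp.nonneg q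
  have he := (exc_nonneg (pt W 1) (pt W x) q).trans hq
  rcases le_total (dist (pt W 1) q) (dist (pt W 1) (pt W x)) with h1 | h1
  · have hk : nd (pt W 1) q ≤ W.ℓ x := by
      rw [dist_eq_nd, dist_one] at h1
      exact_mod_cast h1
    obtain ⟨a, ha, b, hb, hab, hl, hs⟩ := hC x hx _ hk
    have e1 : dist (pt W 1) (pt W a) = dist (pt W 1) q := by
      rw [dist_one, hl, dist_eq_nd]
    have e2 : dist (pt W a) (pt W x) = (W.ℓ b : ℝ) := by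
      rw [dist_pt, ← hab, inv_mul_cancel_left]
    have e3 : exc (pt W 1) (pt W x) (pt W a) = 0 := by
      have : (nd (pt W 1) q : ℝ) + W.ℓ b = W.ℓ x := by exact_mod_cast hs
      unfold exc
      rw [e2, dist_one, dist_one, hl]
      linarith
    refine ⟨a, ha, e3, ?_⟩
    have h3 := order_close hyp hq (e3.le.trans he)
    rw [e1, sub_self, abs_zero] at h3
    linarith
  · refine ⟨x, hx, exc_right _ _, ?_⟩
    unfold exc at hq
    linarith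

/-- the same for cosets -/
lemma near_coset {δ : ℝ} (hyp : GHyp (Pt W) δ) {C : Subgroup Γ} (hC : Geo W C) (y : Γ)
    {b₁ b₀ : Γ} (h₁ : b₁ ∈ C) (h₀ : b₀ ∈ C) {q : Pt W} {e : ℝ}
    (hq : exc (pt W (y * b₁)) (pt W (y * b₀)) q ≤ e) :
    ∃ b ∈ C, exc (pt W (y * b₁)) (pt W (y * b₀)) (pt W (y * b)) = 0 ∧
      dist q (pt W (y * b)) ≤ e + 2 * δ := by
  have e1 : pt W (y * b₁) = (y * b₁) • pt W 1 := by rw [smul_base]
  have e2 : pt W (y * b₀) = (y * b₁) • pt W (b₁⁻¹ * b₀) := by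
    rw [smul_pt]; congr 1; group
  have e3 : q = (y * b₁) • ((y * b₁)⁻¹ • q) := by rw [smul_inv_smul]
  rw [e1, e2, e3, exc_smul] at hq
  obtain ⟨a, ha, h3, h4⟩ := near_sub hyp hC (C.mul_mem (C.inv_mem h₁) h₀) hq
  have e4 : pt W (y * (b₁ * a)) = (y * b₁) • pt W a := by rw [smul_pt, mul_assoc]
  refine ⟨b₁ * a, C.mul_mem h₁ ha, ?_, ?_⟩
  · rw [e1, e2, e4, exc_smul]; exact h3
  · rw [e3, e4, dist_smul]; exact h4

/-- composition of excesses -/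
lemma exc_comp {X : Type*} [PseudoMetricSpace X] (p x q v : X) :
    exc p x v ≤ exc q x v + exc p x q := by
  have h1 := dist_triangle p q v
  unfold exc
  linarith

lemma exc_comp' {X : Type*} [PseudoMetricSpace X] (p x q v : X) :
    exc p x v ≤ exc p q v + exc p x q := by
  have h1 := dist_triangle v q x
  unfold exc
  linarith

/-- two consecutive cells cannot be of opposite sign -/
lemma geom {X : Type*} [PseudoMetricSpace X] {p x α q₁ q₁' u v : X} {c e f : ℝ}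
    (hα : exc p x α = 0) (hqα : dist q₁ α ≤ f) (h₁ : dist q₁ u ≤ c) (h₂ : exc q₁ x v ≤ c)
    (h₃ : dist q₁' v ≤ c) (h₄ : exc p α q₁' ≤ e) : 2 * dist u v ≤ 5 * c + e + 2 * f := by
  have t1 := dist_triangle p q₁' v
  have t2 := dist_triangle v q₁' α
  have t3 := dist_triangle q₁ α x
  have t4 := dist_triangle4 u q₁ α v
  have t5 := dist_triangle u q₁ v
  have t6 := dist_triangle p v x
  rw [dist_comm v q₁'] at t2
  rw [dist_comm u q₁] at t4 t5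
  rw [dist_comm α v] at t4
  unfold exc at *
  linarith

end tools

section claim

variable {Γ : Type*} [Group Γ] {W : WNorm Γ} {𝒜 : Type*} [MulAction Γ 𝒜]

/-- the ladder of cells: shortest representatives are bounded -/
theorem claim (Y : Sys Γ W 𝒜) (R : Spq Y) (hM : 10000 * Y.θ ≤ R.M) {A B : Subgroup Γ}
    (hA : Geo W A) (hB : Geo W B) (ss : SSm (⊥ : Subgroup Γ) A B)
    {w g₀ r : Γ} (hw : w ∈ A) (hr : w⁻¹ * r * g₀ ∈ B)
    (hg₀ : ∀ a ∈ A, ∀ b ∈ B, a * b ≠ g₀) {c : ℝ} (hc : 1000 * Y.θ ≤ c)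
    (hwc : 100 * c ≤ W.ℓ w) (hcell : Cells Y R A B w g₀ r c)
    {D : ℝ} (hD : ∀ (y : Γ), ∀ a ∈ A, ∀ a' ∈ A, ∀ b ∈ B, ∀ b' ∈ B,
      dist (pt W a) (pt W (y * b)) ≤ 5 * c → dist (pt W a') (pt W (y * b')) ≤ 5 * c →
        dist (pt W a) (pt W a') ≤ D)
    {h x z : Γ} (hx : x ∈ A) (hz : z ∈ B) (hh : (W.ℓ h : ℝ) ≤ 87 * Y.θ)
    (rx : ∀ n ∈ R.N, W.ℓ x ≤ W.ℓ (x * n)) (rz : ∀ n ∈ R.N, W.ℓ z ≤ W.ℓ (z * n))
    (hn : x * h * z⁻¹ * h⁻¹ ∈ R.N) (hn1 : x * h * z⁻¹ * h⁻¹ ≠ 1) :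
    (W.ℓ x : ℝ) ≤ 2 * D + W.ℓ w + 4 * c := by
  have hδ := Y.hδ
  have hθ := Y.hθ
  have hN := R.normal
  have hθ0 : 0 < Y.θ := by linarith
  have hM4 : 4000 * Y.θ ≤ R.M := by linarith
  set n := x * h * z⁻¹ * h⁻¹ with hn_def
  set y := x * h * z⁻¹ with hy_def
  have ny : n * h = y := by rw [hn_def, hy_def]; group
  have yz : y * z = x * h := by rw [hy_def]; group
  -- the reduced pairs
  have hX : Red R.N (pt W 1) (pt W x) := by
    intro m hm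
    have h1 := rx (x⁻¹ * m * x) (by simpa using hN.conj_mem m hm x⁻¹)
    have e : x * (x⁻¹ * m * x) = m * x := by group
    rw [e] at h1
    rw [smul_pt, dist_one, dist_one]
    exact_mod_cast h1
  have hZ : Red R.N (pt W (y * z)) (pt W (y * 1)) := by
    intro m hm
    have h1 := rz ((y * z)⁻¹ * m⁻¹ * (y * z))
      (by simpa using hN.conj_mem _ (R.N.inv_mem hm) (y * z)⁻¹)
    rw [smul_pt, dist_pt, dist_pt, ← W.inv' ((y * z)⁻¹ * (y * 1)),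
      ← W.inv' ((y * z)⁻¹ * (m * (y * 1)))]
    have e1 : ((y * z)⁻¹ * (y * 1))⁻¹ = z := by group
    have e2 : ((y * z)⁻¹ * (m * (y * 1)))⁻¹ = z * ((y * z)⁻¹ * m⁻¹ * (y * z)) := by group
    rw [e1, e2]
    exact_mod_cast h1
  have hJ : dist (pt W x) (pt W (y * z)) ≤ 87 * Y.θ := by
    rw [yz, dist_pt, inv_mul_cancel_left]; exact hh
  have hJ' : dist (pt W (y * 1)) (n • pt W 1) ≤ 87 * Y.θ := by
    rw [smul_pt, mul_one, mul_one, ← ny, dist_pt, ← W.inv']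
    have e : ((n * h)⁻¹ * n)⁻¹ = h := by group
    rw [e]; exact hh
  obtain ⟨S, ρ, hρ, hρ1, q₁, hq₁, q₂, hq₂, hd, hfar, he₁, he₂⟩ :=
    strip Y R hM4 hn hn1 hX hZ (by linarith) (by linarith)
  have hρN : ρ ∈ R.N := R.G_le S hρ
  have he₂' : exc (pt W (y * z)) (pt W (y * 1)) q₂ ≤ 232 * Y.θ := by
    rcases he₂ with h1 | h1
    · linarith
    · have := exc_le_two' (pt W (y * z)) (pt W (y * 1)) q₂
      linarith
  -- the points `α` and `β`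
  obtain ⟨α, hα, hα0, hqα⟩ := near_sub Y.hyp hA hx he₁
  have hβ : ∃ β ∈ B, exc (pt W (y * z)) (pt W (y * 1)) (pt W (y * β)) = 0 ∧
      dist q₂ (pt W (y * β)) ≤ 116 * Y.θ := by
    rcases he₂ with h1 | h1
    · obtain ⟨β, h2, h3, h4⟩ := near_coset Y.hyp hB y hz B.one_mem h1
      exact ⟨β, h2, h3, by linarith⟩
    · exact ⟨1, B.one_mem, exc_right _ _, h1⟩
  obtain ⟨β, hβ, hβ0, hqβ⟩ := hβ
  have hαβ : dist (ρ • pt W α) (pt W (y * β)) ≤ 189 * Y.θ := by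
    have h1 := dist_triangle4 (ρ • pt W α) (ρ • q₁) q₂ (pt W (y * β))
    rw [dist_smul, dist_comm (pt W α) q₁] at h1
    linarith
  -- the first cell
  obtain ⟨g₁, hg₁, hc₁⟩ := hcell 1 A.one_mem x hx y z hz 1 B.one_mem S ρ hρ hρ1 q₁ hq₁ q₂ hq₂ hd
    (by linarith) (by linarith) (by linarith)
  by_cases hst : ρ⁻¹ * n = 1
  · -- one cell
    have hρn : n = ρ := by rw [inv_mul_eq_one] at hst; exact hst.symm
    have hα' : dist (pt W α) (pt W (h * β)) ≤ 5 * c := by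
      have e : pt W (y * β) = ρ • pt W (h * β) := by
        rw [smul_pt, ← ny, hρn, mul_assoc]
      rw [e, dist_smul] at hαβ
      linarith
    have hD1 : dist (pt W 1) (pt W α) ≤ D := by
      apply hD h 1 A.one_mem α hα 1 B.one_mem β hβ _ hα'
      rw [mul_one, dist_one]; linarith
    obtain ⟨u, v, huv, h1, h2, h3⟩ : ∃ u v : Pt W, dist u v = W.ℓ w ∧ dist q₁ u ≤ c ∧
        exc q₁ (pt W x) v ≤ c ∧ exc (pt W (y * z)) q₂ v ≤ c := by
      rcases hc₁ with ⟨-, h1, h2, h3, -⟩ | ⟨-, h1, h2, h3, -⟩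
      · exact ⟨pt W g₁, pt W (g₁ * w), by rw [dist_pt, inv_mul_cancel_left], h1, h2, h3⟩
      · exact ⟨pt W (g₁ * w), pt W g₁, by rw [dist_comm, dist_pt, inv_mul_cancel_left], h1, h2, h3⟩
    obtain ⟨α', hα', hα'0, hvα'⟩ := near_sub Y.hyp hA hx
      ((exc_comp (pt W 1) (pt W x) q₁ v).trans (add_le_add h2 he₁))
    obtain ⟨β', hβ', hβ'0, hvβ'⟩ := near_coset Y.hyp hB y hz B.one_mem
      ((exc_comp' (pt W (y * z)) (pt W (y * 1)) q₂ v).trans (add_le_add h3 he₂'))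
    have hD2 : dist (pt W α') (pt W x) ≤ D := by
      apply hD y α' hα' x hx β' hβ' z hz
      · have := dist_triangle (pt W α') v (pt W (y * β'))
        rw [dist_comm (pt W α') v] at this
        linarith
      · linarith
    have h4 := dist_triangle4 (pt W 1) (pt W α) (pt W α') (pt W x)
    have h5 := dist_triangle4 (pt W α) q₁ u v
    have h6 := dist_triangle (pt W α) v (pt W α')
    rw [dist_comm (pt W α) q₁] at h5
    rw [dist_one x] at h4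
    linarith
  · -- two cells
    exfalso
    have hn' : ρ⁻¹ * n ∈ R.N := R.N.mul_mem (R.N.inv_mem hρN) hn
    have hX' : Red R.N (pt W 1) (pt W α) := hX.left hα0
    have hZ' : Red R.N (pt W (ρ⁻¹ * y * β)) (pt W (ρ⁻¹ * y * 1)) := by
      have e1 : pt W (ρ⁻¹ * y * β) = ρ⁻¹ • pt W (y * β) := by rw [smul_pt, mul_assoc]
      have e2 : pt W (ρ⁻¹ * y * 1) = ρ⁻¹ • pt W (y * 1) := by rw [smul_pt, mul_assoc]
      rw [e1, e2]
      exact (hZ.right hβ0).smul ρ⁻¹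
    have hJ1 : dist (pt W α) (pt W (ρ⁻¹ * y * β)) ≤ 189 * Y.θ := by
      have e : pt W (y * β) = ρ • pt W (ρ⁻¹ * y * β) := by
        rw [smul_pt]; congr 1; group
      rw [e, dist_smul] at hαβ
      exact hαβ
    have hJ2 : dist (pt W (ρ⁻¹ * y * 1)) ((ρ⁻¹ * n) • pt W 1) ≤ 100 * Y.θ := by
      have e1 : pt W (ρ⁻¹ * y * 1) = ρ⁻¹ • pt W (y * 1) := by rw [smul_pt, mul_assoc]
      rw [e1, mul_smul, dist_smul]
      linarith
    obtain ⟨S', ρ', hρ', hρ'1, q₁', hq₁', q₂', hq₂', hd', hfar', he₁', he₂'⟩ :=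
      strip Y R hM4 hn' hst hX' hZ' (by linarith) hJ2
    have he₂'' : exc (pt W (ρ⁻¹ * y * β)) (pt W (ρ⁻¹ * y * 1)) q₂' ≤ 232 * Y.θ := by
      rcases he₂' with h1 | h1
      · linarith
      · have := exc_le_two' (pt W (ρ⁻¹ * y * β)) (pt W (ρ⁻¹ * y * 1)) q₂'
        linarith
    obtain ⟨g₂, hg₂, hc₂⟩ := hcell 1 A.one_mem α hα (ρ⁻¹ * y) β hβ 1 B.one_mem S' ρ' hρ' hρ'1
      q₁' hq₁' q₂' hq₂' hd' (by linarith) (by linarith) (by linarith)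
    have hw0 : (W.ℓ w : ℝ) ≤ 0 → False := by
      intro h1; linarith
    rcases hc₁ with ⟨e₁, a₁, a₂, -, a₃⟩ | ⟨e₁, a₁, a₂, -, a₃⟩
    · have k₁ : (ρ⁻¹ * y)⁻¹ * g₁ * g₀ ∈ B := by
        have : (ρ⁻¹ * y)⁻¹ * g₁ * g₀ = (y⁻¹ * g₁ * w) * (w⁻¹ * r * g₀) := by
          rw [e₁]; group
        rw [this]; exact B.mul_mem a₃ hr
      rcases hc₂ with ⟨e₂, b₁, b₂, -, b₃⟩ | ⟨e₂, b₁, b₂, -, b₃⟩
      · -- (pos, pos)
        have k₂ := B.mul_mem (B.inv_mem b₃) k₁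
        apply hg₀ (g₁⁻¹ * g₂ * w) (A.mul_mem (A.mul_mem (A.inv_mem hg₁) hg₂) hw) _ k₂
        group
      · -- (pos, neg)
        have k₂ := B.mul_mem (B.inv_mem k₁) b₃
        have e : ((ρ⁻¹ * y)⁻¹ * g₁ * g₀)⁻¹ * ((ρ⁻¹ * y)⁻¹ * g₂ * g₀) = g₀⁻¹ * (g₁⁻¹ * g₂) * g₀ := by
          group
        rw [e] at k₂
        have k₃ := ss (g₁⁻¹ * g₂) (A.mul_mem (A.inv_mem hg₁) hg₂) _ k₂ g₀ (by
          rw [Subgroup.mem_bot]; group)
        rw [Subgroup.mem_bot, inv_mul_eq_one] at k₃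
        subst k₃
        have k₄ := geom hα0 hqα a₁ a₂ b₁ he₁'
        rw [dist_pt, inv_mul_cancel_left] at k₄
        linarith
    · have k₁ : (ρ⁻¹ * y)⁻¹ * g₁ * w ∈ B := by
        have : (ρ⁻¹ * y)⁻¹ * g₁ * w = (y⁻¹ * g₁ * g₀) * (w⁻¹ * r * g₀)⁻¹ := by
          rw [e₁]; group
        rw [this]; exact B.mul_mem a₃ (B.inv_mem hr)
      rcases hc₂ with ⟨e₂, b₁, b₂, -, b₃⟩ | ⟨e₂, b₁, b₂, -, b₃⟩
      · -- (neg, pos)
        have k₂ := B.mul_mem (B.inv_mem k₁) b₃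
        have e : ((ρ⁻¹ * y)⁻¹ * g₁ * w)⁻¹ * ((ρ⁻¹ * y)⁻¹ * g₂ * w) = w⁻¹ * (g₁⁻¹ * g₂) * w := by
          group
        rw [e] at k₂
        have k₅ : w⁻¹ * (g₁⁻¹ * g₂) * w ∈ A :=
          A.mul_mem (A.mul_mem (A.inv_mem hw) (A.mul_mem (A.inv_mem hg₁) hg₂)) hw
        have k₃ := ss _ k₅ _ k₂ 1 (by
          rw [Subgroup.mem_bot]; group)
        rw [Subgroup.mem_bot] at k₃
        have k₆ : g₁ = g₂ := by
          have : g₁⁻¹ * g₂ = w * (w⁻¹ * (g₁⁻¹ * g₂) * w) * w⁻¹ := by group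
          rw [k₃, mul_one, mul_inv_cancel, inv_mul_eq_one] at this
          exact this
        subst k₆
        have k₄ := geom hα0 hqα a₁ a₂ b₁ he₁'
        rw [dist_comm, dist_pt, inv_mul_cancel_left] at k₄
        linarith
      · -- (neg, neg)
        have k₂ := B.mul_mem (B.inv_mem k₁) b₃
        apply hg₀ (g₂⁻¹ * g₁ * w) (A.mul_mem (A.mul_mem (A.inv_mem hg₂) hg₁) hw) _ k₂
        group

end claim

end SI

section final

variable {Γ : Type*} [Group Γ] {W : WNorm Γ} {𝒜 : Type*} [MulAction Γ 𝒜]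

/-- conjugacy separation survives the factorising relator; `hsh` is `short_h Y R _ hA hB gA gB htf ss`
and `hov` is `overlap Y.hyp hA hB ss` -/
theorem ss_i_of {Γ : Type*} [Group Γ] {W : WNorm Γ} {𝒜 : Type*} [MulAction Γ 𝒜] (Y : Sys Γ W 𝒜)
    (R : Spq Y) (hM : 10000 * Y.θ ≤ R.M) {A B : Subgroup Γ}
    (hA : Geo W A) (hB : Geo W B) (gA : NGeo W R.N A) (gB : NGeo W R.N B)
    (htf : ∀ (u : Γ) (k : ℕ), 0 < k → u ^ k ∈ R.N → u ∈ R.N)
    (ss : SSm (⊥ : Subgroup Γ) A B)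
    (hsh : ∀ {h x z : Γ}, x ∈ A → z ∈ B → x ∉ R.N → x⁻¹ * (h * z * h⁻¹) ∈ R.N →
      (∀ a ∈ A, ∀ n ∈ R.N, ∀ b ∈ B, W.ℓ h ≤ W.ℓ (a * n * h * b)) →
      (W.ℓ h : ℝ) ≤ 87 * Y.θ)
    (hov : ∀ J : ℝ, ∃ D : ℝ, ∀ (y : Γ), ∀ a ∈ A, ∀ a' ∈ A,
      ∀ b ∈ B, ∀ b' ∈ B, dist (pt W a) (pt W (y * b)) ≤ J → dist (pt W a') (pt W (y * b')) ≤ J →
        dist (pt W a) (pt W a') ≤ D)
    {w g₀ r : Γ} (hw : w ∈ A) (hr : w⁻¹ * r * g₀ ∈ B)
    (hg₀ : ∀ a ∈ A, ∀ b ∈ B, a * b ≠ g₀) {c : ℝ} (hc : 1000 * Y.θ ≤ c)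
    (hwc : 100 * c ≤ W.ℓ w) (hcell : Cells Y R A B w g₀ r c) :
    SSm R.N A B := by
  classical
  have hδ := Y.hδ
  have hθ := Y.hθ
  have hN := R.normal
  by_contra hcon
  -- a minimal counterexample
  have hex : ∃ m : ℕ, ∃ a ∈ A, ∃ b ∈ B, ∃ h : Γ, a⁻¹ * (h * b * h⁻¹) ∈ R.N ∧ a ∉ R.N ∧
      W.ℓ h = m := by
    unfold SSm at hcon
    push Not at hcon
    obtain ⟨a, ha, b, hb, h, h1, h2⟩ := hcon
    exact ⟨_, a, ha, b, hb, h, h1, h2, rfl⟩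
  obtain ⟨a, ha, b, hb, h, h1, h2, h3⟩ := Nat.find_spec hex
  have hmin : ∀ a' ∈ A, ∀ n ∈ R.N, ∀ b' ∈ B, W.ℓ h ≤ W.ℓ (a' * n * h * b') := by
    intro a' ha' n hn b' hb'
    rw [h3]
    apply Nat.find_min' hex
    refine ⟨a' * a * a'⁻¹, A.mul_mem (A.mul_mem ha' ha) (A.inv_mem ha'), b'⁻¹ * b * b',
      B.mul_mem (B.mul_mem (B.inv_mem hb') hb) hb', a' * n * h * b', ?_, ?_, rfl⟩
    · have e : (a' * a * a'⁻¹)⁻¹ * (a' * n * h * b' * (b'⁻¹ * b * b') * (a' * n * h * b')⁻¹) =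
          a' * ((a⁻¹ * n * a) * (a⁻¹ * (h * b * h⁻¹)) * n⁻¹) * a'⁻¹ := by group
      rw [e]
      apply hN.conj_mem
      apply R.N.mul_mem (R.N.mul_mem _ h1) (R.N.inv_mem hn)
      simpa using hN.conj_mem n hn a⁻¹
    · intro h4
      apply h2
      have := hN.conj_mem _ h4 a'⁻¹
      have e : a'⁻¹ * (a' * a * a'⁻¹) * a'⁻¹⁻¹ = a := by group
      rwa [e] at this
  have hh := hsh ha hb h2 h1 hmin
  obtain ⟨D, hD⟩ := hov (5 * c)
  -- the powers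
  choose! x hx using gA
  choose! z hz using gB
  have key : ∀ k : ℕ, (W.ℓ (x (a ^ (k + 1))) : ℝ) ≤ 2 * D + W.ℓ w + 4 * c := by
    intro k
    have hak := A.pow_mem ha (k + 1)
    have hbk := B.pow_mem hb (k + 1)
    obtain ⟨x1, x2, x3⟩ := hx _ hak
    obtain ⟨z1, z2, z3⟩ := hz _ hbk
    have hakN : a ^ (k + 1) ∉ R.N := fun h4 => h2 (htf a (k + 1) (by omega) h4)
    -- work in the quotient
    have q1 : ((x (a ^ (k + 1)) : Γ) : Γ ⧸ R.N) = (a : Γ ⧸ R.N) ^ (k + 1) := by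
      rw [← QuotientGroup.mk_pow]
      exact (QuotientGroup.eq.mpr x2).symm
    have q2 : ((z (b ^ (k + 1)) : Γ) : Γ ⧸ R.N) = (b : Γ ⧸ R.N) ^ (k + 1) := by
      rw [← QuotientGroup.mk_pow]
      exact (QuotientGroup.eq.mpr z2).symm
    have q3 : (a : Γ ⧸ R.N) = h * b * (h : Γ ⧸ R.N)⁻¹ := by
      rw [← QuotientGroup.mk_mul, ← QuotientGroup.mk_inv, ← QuotientGroup.mk_mul]
      exact QuotientGroup.eq.mpr h1
    have hn : x (a ^ (k + 1)) * h * (z (b ^ (k + 1)))⁻¹ * h⁻¹ ∈ R.N := by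
      rw [← QuotientGroup.eq_one_iff]
      rw [QuotientGroup.mk_mul, QuotientGroup.mk_mul, QuotientGroup.mk_mul, QuotientGroup.mk_inv,
        QuotientGroup.mk_inv, q1, q2, q3, conj_pow]
      group
    refine SI.claim Y R hM hA hB ss hw hr hg₀ hc hwc hcell hD x1 z1 hh x3 z3 hn ?_
    intro h4
    apply hakN
    have h5 : (x (a ^ (k + 1)))⁻¹ * (h * z (b ^ (k + 1)) * h⁻¹) ∈ (⊥ : Subgroup Γ) := by
      rw [Subgroup.mem_bot]
      have : x (a ^ (k + 1)) = h * z (b ^ (k + 1)) * h⁻¹ := by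
        calc x (a ^ (k + 1)) = (x (a ^ (k + 1)) * h * (z (b ^ (k + 1)))⁻¹ * h⁻¹) *
              (h * z (b ^ (k + 1)) * h⁻¹) := by group
          _ = _ := by rw [h4, one_mul]
      rw [this]; group
    have h6 := ss _ x1 _ z1 h h5
    rw [Subgroup.mem_bot] at h6
    rw [h6, mul_one] at x2
    exact (R.N.inv_mem_iff).mp x2
  -- pigeonhole
  have hfin := W.fin ⌊2 * D + W.ℓ w + 4 * c⌋₊
  obtain ⟨i, -, j, -, hij, hxij⟩ := Set.infinite_univ.exists_ne_map_eq_of_mapsTo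
    (f := fun k : ℕ => x (a ^ (k + 1))) (fun k _ => by
      exact Nat.le_floor (key k)) hfin
  wlog hlt : i < j generalizing i j
  · exact this j i hij.symm hxij.symm (lt_of_le_of_ne (not_lt.mp hlt) hij.symm)
  have x2 := (hx _ (A.pow_mem ha (i + 1))).2.1
  have x2' := (hx _ (A.pow_mem ha (j + 1))).2.1
  have hxij' : x (a ^ (i + 1)) = x (a ^ (j + 1)) := hxij
  rw [hxij'] at x2
  have h4 := R.N.mul_mem x2 (R.N.inv_mem x2')
  have e : (a ^ (i + 1))⁻¹ * x (a ^ (j + 1)) * ((a ^ (j + 1))⁻¹ * x (a ^ (j + 1)))⁻¹ =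
      a ^ (j - i) := by
    have : j + 1 = (i + 1) + (j - i) := by omega
    rw [mul_inv_rev, inv_inv, ← mul_assoc, mul_inv_cancel_right, this, pow_add]
    group
  rw [e] at h4
  exact h2 (htf a (j - i) (by omega) h4)

end final

end Pool.Agent.TH82.FG
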